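import Pool.Agent.H37.CND.Stmts

/-!
# Denominators of conductors: row EGC
-/

set_option autoImplicit false

namespace Pool.CND

open Finset Polynomial

/-- a separable nonzero polynomial over an algebraically closed field has `natDegree` zeros -/
theorem egc_roots {k : Type} [Field k] [IsAlgClosed k] (f : k[X]) (hs : f.Separable)
    (hf : f ≠ 0) : Finite {x : k // f.eval x = 0} ∧ Nat.card {x : k // f.eval x = 0} = f.natDegree := by
  classical
  have e : {x : k // f.eval x = 0} ≃ f.rootSet k := by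
    refine Equiv.subtypeEquivRight fun x => ?_
    rw [mem_rootSet_of_ne hf, coe_aeval_eq_eval]
  have h1 := card_rootSet_eq_natDegree (F := k) (K := k) hs (IsAlgClosed.splits _)
  refine ⟨Finite.of_equiv _ e.symm, ?_⟩
  rw [Nat.card_congr e, Nat.card_eq_fintype_card, h1]

/-- the set of the first coordinates -/
theorem egc_w (p : ℕ) (k : Type) [Field k] [IsAlgClosed k] [Fact p.Prime] [CharP k p] (h : ℕ)
    (hh : 1 ≤ h) : Finite {x : k // x ^ (p ^ (2 * h)) = -x} ∧
    Nat.card {x : k // x ^ (p ^ (2 * h)) = -x} = p ^ (2 * h) := by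
  have hp := (Fact.out : p.Prime)
  have hq : 1 < p ^ (2 * h) := Nat.one_lt_pow (by omega) hp.one_lt
  have hd : (X ^ (p ^ (2 * h)) + X : k[X]).natDegree = p ^ (2 * h) := by
    rw [natDegree_add_eq_left_of_natDegree_lt, natDegree_X_pow]
    rw [natDegree_X_pow, natDegree_X]
    exact hq
  have hf : (X ^ (p ^ (2 * h)) + X : k[X]) ≠ 0 := by
    intro h0
    rw [h0, natDegree_zero] at hd
    omega
  have hs : (X ^ (p ^ (2 * h)) + X : k[X]).Separable := by
    rw [separable_def]
    have : derivative (X ^ (p ^ (2 * h)) + X : k[X]) = 1 := by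
      rw [derivative_add, derivative_X_pow, derivative_X]
      have : ((p ^ (2 * h) : ℕ) : k) = 0 := by
        rw [Nat.cast_pow, CharP.cast_eq_zero, zero_pow (by omega)]
      rw [this]
      simp
    rw [this]
    exact isCoprime_one_right
  have e : {x : k // x ^ (p ^ (2 * h)) = -x} ≃
      {x : k // (X ^ (p ^ (2 * h)) + X : k[X]).eval x = 0} := by
    refine Equiv.subtypeEquivRight fun x => ?_
    rw [eval_add, eval_pow, eval_X, add_eq_zero_iff_eq_neg]
  obtain ⟨h1, h2⟩ := egc_roots _ hs hf
  refine ⟨Finite.of_equiv _ e.symm, ?_⟩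
  rw [Nat.card_congr e, h2, hd]

/-- the second coordinates over a given first one -/
theorem egc_β (p : ℕ) (k : Type) [Field k] [IsAlgClosed k] [Fact p.Prime] [CharP k p] (c : k) :
    Finite {x : k // x ^ p - x = c} ∧ Nat.card {x : k // x ^ p - x = c} = p := by
  have hp := (Fact.out : p.Prime)
  have hd : (X ^ p - (X + C c) : k[X]).natDegree = p := by
    rw [natDegree_sub_eq_left_of_natDegree_lt, natDegree_X_pow]
    rw [natDegree_X_pow, natDegree_X_add_C]
    exact hp.one_lt
  have hf : (X ^ p - (X + C c) : k[X]) ≠ 0 := by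
    intro h0
    rw [h0, natDegree_zero] at hd
    exact hp.ne_zero hd.symm
  have hs : (X ^ p - (X + C c) : k[X]).Separable := by
    rw [separable_def]
    have : derivative (X ^ p - (X + C c) : k[X]) = -1 := by
      rw [derivative_sub, derivative_X_pow, derivative_X_add_C, CharP.cast_eq_zero]
      simp
    rw [this]
    exact isCoprime_one_right.neg_right
  have e : {x : k // x ^ p - x = c} ≃ {x : k // (X ^ p - (X + C c) : k[X]).eval x = 0} := by
    refine Equiv.subtypeEquivRight fun x => ?_
    rw [eval_sub, eval_pow, eval_add, eval_X, eval_C]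
    constructor
    · intro h; linear_combination h
    · intro h; linear_combination h
  obtain ⟨h1, h2⟩ := egc_roots _ hs hf
  refine ⟨Finite.of_equiv _ e.symm, ?_⟩
  rw [Nat.card_congr e, h2, hd]

/-- the group as a sum over the first coordinates -/
def egcEquiv (k : Type) [Field k] (p h : ℕ) : EG k p h ≃
    (Σ w : {x : k // x ^ (p ^ (2 * h)) = -x}, {x : k // x ^ p - x = w.1 ^ (p ^ h + 1)}) where
  toFun g := ⟨⟨g.1.1, g.2.1⟩, ⟨g.1.2, g.2.2⟩⟩
  invFun z := ⟨(z.1.1, z.2.1), z.1.2, z.2.2⟩
  left_inv _ := rfl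
  right_inv _ := rfl

theorem egc_thm : S_EGC := by
  intro p k _ _ _ _ h hh
  obtain ⟨h1, h2⟩ := egc_w p k h hh
  have h3 : ∀ w : {x : k // x ^ (p ^ (2 * h)) = -x},
      Finite {x : k // x ^ p - x = w.1 ^ (p ^ h + 1)} := fun w => (egc_β p k _).1
  have : Fintype {x : k // x ^ (p ^ (2 * h)) = -x} := Fintype.ofFinite _
  refine ⟨Finite.of_equiv _ (egcEquiv k p h).symm, ?_⟩
  rw [Nat.card_congr (egcEquiv k p h), Nat.card_sigma]
  rw [Finset.sum_congr rfl fun w _ => (egc_β p k (w.1 ^ (p ^ h + 1))).2]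
  rw [Finset.sum_const, Finset.card_univ, ← Nat.card_eq_fintype_card, h2, smul_eq_mul, pow_succ]

end Pool.CND
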