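import Pool.Agent.H90.CND.EGC

/-!
# Denominators of conductors: row EGZ
-/

set_option autoImplicit false

namespace Pool.CND

open Finset Polynomial

section

variable {k : Type} [Field k] {p : ℕ} [Fact p.Prime] [CharP k p] {h : ℕ}

/-- `B_w` of the generic point minus `B` of it, as a polynomial -/
noncomputable def egzPoly (k : Type) [Field k] (p h : ℕ) (w : k) : k[X] :=
  ∑ i ∈ range h, C ((w ^ (p ^ h)) ^ (p ^ i)) * X ^ (p ^ i) -
    ∑ i ∈ range h, C (w ^ (p ^ i)) * X ^ (p ^ h * p ^ i)

omit [Fact p.Prime] [CharP k p] in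
theorem egzPoly_eval (w v : k) : (egzPoly k p h w).eval v = Bf p h v w - Bf p h w v := by
  simp only [egzPoly, Bf, eval_sub, eval_finsetSum, eval_mul, eval_C, eval_pow, eval_X, mul_pow]
  rw [neg_sub_neg]
  congr 1
  refine sum_congr rfl fun i _ => ?_
  rw [← pow_mul v]
  ring

omit [CharP k p] in
theorem egzPoly_ne (w : k) (hw : w ≠ 0) (hh : 1 ≤ h) : egzPoly k p h w ≠ 0 := by
  have hp := (Fact.out : p.Prime)
  intro h0
  have h1 := congrArg (fun f => coeff f 1) h0
  simp only [egzPoly, coeff_sub, finsetSum_coeff, coeff_C_mul, coeff_X_pow, coeff_zero] at h1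
  have e1 : ∑ i ∈ range h, (w ^ (p ^ h)) ^ (p ^ i) * (if 1 = p ^ i then (1 : k) else 0) =
      w ^ (p ^ h) := by
    rw [sum_eq_single 0]
    · simp
    · intro i _ hi
      rw [if_neg, mul_zero]
      have := Nat.one_lt_pow hi hp.one_lt
      omega
    · intro h2
      exact absurd (mem_range.2 (by omega)) h2
  have e2 : ∑ i ∈ range h, w ^ (p ^ i) * (if 1 = p ^ h * p ^ i then (1 : k) else 0) = 0 := by
    refine sum_eq_zero fun i _ => ?_
    rw [if_neg, mul_zero]
    have : 1 < p ^ h * p ^ i := by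
      rw [← pow_add]
      exact Nat.one_lt_pow (by omega) hp.one_lt
    omega
  rw [e1, e2, sub_zero] at h1
  exact pow_ne_zero _ hw h1

omit [CharP k p] in
theorem egzPoly_deg (w : k) (hh : 1 ≤ h) : (egzPoly k p h w).natDegree ≤ p ^ (2 * h - 1) := by
  have hp := (Fact.out : p.Prime)
  refine (natDegree_sub_le _ _).trans (max_le ?_ ?_)
  · refine natDegree_sum_le_of_forall_le _ _ fun i hi => ?_
    refine (natDegree_C_mul_le _ _).trans ?_
    rw [natDegree_X_pow]
    exact Nat.pow_le_pow_right hp.pos (by have := mem_range.1 hi; omega)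
  · refine natDegree_sum_le_of_forall_le _ _ fun i hi => ?_
    refine (natDegree_C_mul_le _ _).trans ?_
    rw [natDegree_X_pow, ← pow_add]
    exact Nat.pow_le_pow_right hp.pos (by have := mem_range.1 hi; omega)

/-- the first coordinates that commute with all -/
theorem egz_zero [IsAlgClosed k] (w : k) (hh : 1 ≤ h)
    (hw : ∀ v : k, v ^ (p ^ (2 * h)) = -v → Bf p h v w = Bf p h w v) : w = 0 := by
  classical
  have hp := (Fact.out : p.Prime)
  by_contra h0
  have h1 := egzPoly_ne (p := p) w h0 hh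
  obtain ⟨h2, h3⟩ := egc_w p k h hh
  have h4 : Nat.card {x : k // x ^ (p ^ (2 * h)) = -x} ≤ (egzPoly k p h w).natDegree := by
    have hsub : ∀ x : {x : k // x ^ (p ^ (2 * h)) = -x}, x.1 ∈ (egzPoly k p h w).roots.toFinset := by
      intro x
      rw [Multiset.mem_toFinset, mem_roots h1, IsRoot.def, egzPoly_eval, hw x.1 x.2, sub_self]
    have := Nat.card_le_card_of_injective
      (fun x : {x : k // x ^ (p ^ (2 * h)) = -x} =>
        (⟨x.1, hsub x⟩ : {x // x ∈ (egzPoly k p h w).roots.toFinset}))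
      (fun x y hxy => Subtype.ext (congrArg (fun z => z.1) hxy))
    refine this.trans ?_
    rw [Nat.card_eq_fintype_card, Fintype.card_coe]
    exact (Multiset.toFinset_card_le _).trans (card_roots' _)
  rw [h3] at h4
  have h5 := h4.trans (egzPoly_deg w hh)
  have h6 := (Nat.pow_le_pow_iff_right hp.one_lt).1 h5
  omega

theorem egz_w_pow (g : EG k p h) (n : ℕ) : (g ^ n).w = n * g.w := by
  induction n with
  | zero => rw [pow_zero, EG.one_w]; simp
  | succ n ih => rw [pow_succ, EG.mul_w, ih]; push_cast; ring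

theorem egz_Bf_nsmul (w x : k) (n : ℕ) : Bf p h w (n * x) = n * Bf p h w x := by
  induction n with
  | zero => simp [Bf_zero_right]
  | succ n ih =>
    push_cast
    rw [add_mul, one_mul, Bf_add_right, ih]
    ring

theorem egz_β_pow (g : EG k p h) (n : ℕ) :
    (g ^ n).β = n * g.β + (n.choose 2 : ℕ) * Bf p h g.w g.w := by
  induction n with
  | zero => rw [pow_zero, EG.one_β]; simp
  | succ n ih =>
    rw [pow_succ, EG.mul_β, ih, egz_w_pow, egz_Bf_nsmul, Nat.choose_succ_succ' n 1, Nat.choose_one_right]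
    push_cast
    ring

theorem egz_mem [IsAlgClosed k] (hh : 1 ≤ h) (g : EG k p h) :
    g ∈ Subgroup.center (EG k p h) ↔ g.w = 0 := by
  rw [Subgroup.mem_center_iff]
  constructor
  · intro hg
    refine egz_zero g.w hh fun v hv => ?_
    obtain ⟨h1, h2⟩ := egc_β p k (v ^ (p ^ h + 1))
    have hne : Nonempty {x : k // x ^ p - x = v ^ (p ^ h + 1)} := by
      by_contra hc
      rw [not_nonempty_iff] at hc
      rw [Nat.card_of_isEmpty] at h2
      exact (Fact.out : p.Prime).ne_zero h2.symm
    obtain ⟨b, hb⟩ := hne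
    obtain ⟨g', e1, e2⟩ : ∃ g' : EG k p h, g'.w = v ∧ g'.β = b := ⟨⟨(v, b), hv, hb⟩, rfl, rfl⟩
    have h3 := congrArg EG.β (hg g')
    rw [EG.mul_β, EG.mul_β, e1, e2] at h3
    linear_combination -h3
  · intro hw g'
    refine EG.ext ?_ ?_
    · rw [EG.mul_w, EG.mul_w, add_comm]
    · rw [EG.mul_β, EG.mul_β, hw, Bf_zero_left, Bf_zero_right]
      ring

theorem egz_thm : S_EGZ := by
  intro p k _ _ _ _ h hh
  have hp := (Fact.out : p.Prime)
  refine ⟨?_, ?_, ?_, ?_⟩
  · have e : Subgroup.center (EG k p h) ≃ {x : k // x ^ p - x = 0} :=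
      { toFun := fun g => ⟨g.1.β, by
          rw [g.1.β_eq, (egz_mem hh g.1).1 g.2, zero_pow (Nat.succ_ne_zero _)]⟩
        invFun := fun b => ⟨⟨(0, b.1), by
            show (0 : k) ^ (p ^ (2 * h)) = -0
            rw [zero_pow (pow_ne_zero _ hp.ne_zero), neg_zero], by
            show b.1 ^ p - b.1 = 0 ^ (p ^ h + 1)
            rw [b.2, zero_pow (Nat.succ_ne_zero _)]⟩, (egz_mem hh _).2 rfl⟩
        left_inv := fun g => by
          refine Subtype.ext (EG.ext ?_ rfl)
          exact ((egz_mem hh g.1).1 g.2).symm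
        right_inv := fun b => rfl }
    rw [Nat.card_congr e]
    exact (egc_β p k 0).2
  · intro g
    rw [egz_mem hh, egz_w_pow, CharP.cast_eq_zero, zero_mul]
  · intro g g'
    rw [egz_mem hh, EG.mul_w, EG.mul_w, EG.mul_w, EG.inv_w, EG.inv_w]
    ring
  · intro h2 g
    have h3 : ((p.choose 2 : ℕ) : k) = 0 := by
      have : p ∣ p.choose 2 := hp.dvd_choose_self (by norm_num) (by
        have := hp.two_le
        omega)
      rw [CharP.cast_eq_zero_iff k p]
      exact this
    refine EG.ext ?_ ?_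
    · rw [egz_w_pow, CharP.cast_eq_zero, zero_mul, EG.one_w]
    · rw [egz_β_pow, CharP.cast_eq_zero, zero_mul, h3, zero_mul, zero_add, EG.one_β]

end

end Pool.CND
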